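import Pool.Agent.H887R3.LW.MV8

/-!
# Boyd's conjecture `μ(m) → ∞` for nonreciprocal polynomials and for polynomials of bounded degree
in one of their variables

For all `B` and `w` there is `m₀` such that every irreducible integer polynomial (in any number of
variables) whose Newton polytope has dimension at least `m₀`, and which is not reciprocal, or has
degree between `1` and `w` in some variable, has Mahler measure at least `B`.

It comes from a compactness theorem for coprime pairs in several variables: if
`∫ log max(|F|, |G|) ≤ K` with `F`, `G` coprime, then `F` divides a polynomial having at most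
`N(K)` monomials, so that its Newton polytope has bounded dimension
(`Pool.Agent.H887R3.LW.dim_bound`).
-/

set_option autoImplicit false

namespace Pool.Agent.Results.MP_417103_nt.NonreciprocalOrThin

noncomputable section

/-- The Mahler measure of an integer polynomial in `k` variables: the exponential of the mean of
`log |F(exp (2 π i t_1), …, exp (2 π i t_k))|`. -/
def mahler {k : ℕ} (F : MvPolynomial (Fin k) ℤ) : ℝ :=
  Real.exp (∫ t in Set.Icc (0 : Fin k → ℝ) 1,
    Real.log ‖MvPolynomial.eval
      (fun j : Fin k => Complex.exp (2 * (Real.pi : ℂ) * Complex.I * ((t j : ℝ) : ℂ)))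
      (MvPolynomial.map (Int.castRingHom ℂ) F)‖)

/-- The reciprocal polynomial `z_1^{d_1} ⋯ z_k^{d_k} F(1/z_1, …, 1/z_k)`, where `d_i` is the degree
of `F` in `z_i`. -/
def reciprocal {k : ℕ} (F : MvPolynomial (Fin k) ℤ) : MvPolynomial (Fin k) ℤ :=
  ∑ s ∈ F.support, MvPolynomial.monomial
    (Finsupp.equivFunOnFinite.symm fun i => F.degreeOf i - s i) (F.coeff s)

/-- The dimension of the Newton polytope of `F`: the dimension of the affine hull of the exponent
vectors of `F`. -/
def newtonDim {k : ℕ} (F : MvPolynomial (Fin k) ℤ) : ℕ :=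
  Module.finrank ℝ (vectorSpan ℝ
    ((fun s : Fin k →₀ ℕ => fun i : Fin k => ((s i : ℕ) : ℝ)) '' (F.support : Set (Fin k →₀ ℕ))))

theorem result (B : ℝ) (w : ℕ) :
    ∃ m₀ : ℕ, ∀ (k : ℕ) (F : MvPolynomial (Fin k) ℤ), Irreducible F → m₀ ≤ newtonDim F →
      (¬ Associated (reciprocal F) F ∨ ∃ i, 1 ≤ F.degreeOf i ∧ F.degreeOf i ≤ w) →
      B ≤ mahler F :=
  Pool.Agent.H887R3.LW.boyd_dim B w

end

end Pool.Agent.Results.MP_417103_nt.NonreciprocalOrThin
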